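import Mathlib
import Pool.Agent.H.MP_94cdcb_an.B

open Set Pointwise

namespace Pool.Agent.Results.MP_94cdcb_an.Yes

variable {X : Type} [NormedAddCommGroup X] [NormedSpace ℝ X]

def Slice (A : Set X) (f : X →L[ℝ] ℝ) (ε : ℝ) : Set X := {x ∈ A | sSup (f '' A) - ε < f x}

def SCD (A : Set X) : Prop := ∃ (f : ℕ → X →L[ℝ] ℝ) (ε : ℕ → ℝ), (∀ n, f n ≠ 0 ∧ 0 < ε n) ∧
  ∀ B : Set X, (∀ n, (B ∩ Slice A (f n) (ε n)).Nonempty) → A ⊆ closure (convexHull ℝ B)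

def HerSCD (U : Set X) : Prop := Bornology.IsBounded U ∧ ∀ A ⊆ U, A.Nonempty → SCD A

theorem result : ∃ (X : Type) (_ : NormedAddCommGroup X) (_ : NormedSpace ℝ X) (_ : CompleteSpace X)
    (U₁ U₂ : Set X), U₁.Nonempty ∧ U₂.Nonempty ∧ HerSCD U₁ ∧ HerSCD U₂ ∧ ¬ SCD (U₁ + U₂) := by
  open Pool.Agent.H.MP_94cdcb_an in
  have hb : Bornology.IsBounded (range r) :=
    isBounded_iff_forall_norm_le.2 ⟨1, by rintro _ ⟨i, rfl⟩; exact r_norm i⟩
  open Pool.Agent.H.MP_94cdcb_an in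
  have h1 : range p ⊆ range r := by rintro _ ⟨E, rfl⟩; exact ⟨.inl E, rfl⟩
  open Pool.Agent.H.MP_94cdcb_an in
  have h2 : range q ⊆ range r := by rintro _ ⟨E, rfl⟩; exact ⟨.inr E, rfl⟩
  open Pool.Agent.H.MP_94cdcb_an in
  exact ⟨Pool.Agent.H.MP_94cdcb_an.X, inferInstance, inferInstance, inferInstance, range p, range q,
    range_nonempty _, range_nonempty _,
    ⟨hb.subset h1, fun A hA hne => scd_sub r_exp (hA.trans h1) hne⟩,
    ⟨hb.subset h2, fun A hA hne => scd_sub r_exp (hA.trans h2) hne⟩, not_scd⟩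

end Pool.Agent.Results.MP_94cdcb_an.Yes
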